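import Mathlib

/-!
MP_b62331_al, Q1.  The answer is negative for every prime `p`.  Class: the groups of order dividing
`p ^ 3` that are abelian or generated by their elements of order dividing `p`.
-/

namespace Pool.Agent.Results.MP_b62331_al.CongruenceConverse

/-- A class of finite groups closed under isomorphism and under taking subgroups. -/
structure GroupClass where
  /-- membership of a group in the class -/
  mem : (G : Type) → [Group G] → Prop
  finite : ∀ (G : Type) [Group G], mem G → Finite G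
  iso : ∀ (G H : Type) [Group G] [Group H], (G ≃* H) → mem G → mem H
  subgroup : ∀ (G : Type) [Group G], mem G → ∀ K : Subgroup G, mem K

section defs

variable {G : Type} [Group G]

/-- `H` is a maximal `X`-subgroup of `G`. -/
def IsMaximalX (X : GroupClass) (H : Subgroup G) : Prop :=
  X.mem H ∧ ∀ K : Subgroup G, X.mem K → ¬ H < K

/-- `H` is a maximal normal `X`-subgroup of `G`. -/
def IsMaximalNormalX (X : GroupClass) (H : Subgroup G) : Prop :=
  H.Normal ∧ X.mem H ∧ ∀ K : Subgroup G, K.Normal → X.mem K → ¬ H < K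

/-- The number `a_G(H)` of `X`-subgroups `K` of `G` with `H < K` and `|K : H| = p`. -/
noncomputable def aCount (p : ℕ) (X : GroupClass) (H : Subgroup G) : ℕ :=
  Nat.card {K : Subgroup G // H < K ∧ X.mem K ∧ H.relIndex K = p}

end defs

/-- Condition (A) for the group `G` and the class `X`. -/
def CondA (p : ℕ) (X : GroupClass) (G : Type) [Group G] : Prop :=
  ∀ H : Subgroup G, X.mem H → aCount p X H = 0 ∨ aCount p X H ≡ 1 [MOD p]

section classX

/-- `G` is generated by its elements of order dividing `p`. -/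
def gen (p : ℕ) (G : Type) [Group G] : Prop :=
  ∀ K : Subgroup G, (∀ g : G, g ^ p = 1 → g ∈ K) → K = ⊤

/-- The class. -/
def memX (p : ℕ) (G : Type) [Group G] : Prop :=
  Nat.card G ∣ p ^ 3 ∧ ((∀ x y : G, x * y = y * x) ∨ gen p G)

variable (p : ℕ) [hp : Fact p.Prime]

theorem comm_of_dvd_sq {G : Type} [Group G] (h : Nat.card G ∣ p ^ 2) (x y : G) :
    x * y = y * x := by
  obtain ⟨k, hk, hc⟩ := (Nat.dvd_prime_pow hp.out).1 h
  have : k = 0 ∨ k = 1 ∨ k = 2 := by omega
  rcases this with rfl | rfl | rfl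
  · rw [pow_zero] at hc
    have := (Nat.card_eq_one_iff_unique.1 hc).1
    exact Subsingleton.elim _ _
  · rw [pow_one] at hc
    have : IsCyclic G := isCyclic_of_prime_card hc
    exact (IsCyclic.isMulCommutative (α := G)).is_comm.comm x y
  · exact (IsPGroup.isMulCommutative_of_card_eq_prime_sq hc).is_comm.comm x y

theorem memX_finite (G : Type) [Group G] (h : memX p G) : Finite G := by
  apply Nat.finite_of_card_ne_zero
  intro h0
  have h1 := h.1
  rw [h0, zero_dvd_iff] at h1
  exact pow_ne_zero 3 hp.out.ne_zero h1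

theorem memX_iso (G H : Type) [Group G] [Group H] (e : G ≃* H) (h : memX p G) : memX p H := by
  refine ⟨by rw [← Nat.card_congr e.toEquiv]; exact h.1, ?_⟩
  rcases h.2 with h2 | h2
  · left
    intro x y
    apply e.symm.injective
    rw [map_mul, map_mul, h2]
  · right
    intro K hK
    have h3 := h2 (K.comap e.toMonoidHom) (by
      intro g hg
      rw [Subgroup.mem_comap]
      apply hK
      show (e g) ^ p = 1
      rw [← map_pow, hg, map_one])
    rw [eq_top_iff]
    intro x _
    have h4 : e.symm x ∈ K.comap e.toMonoidHom := by rw [h3]; trivial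
    rw [Subgroup.mem_comap] at h4
    simpa using h4

theorem memX_subgroup (G : Type) [Group G] (h : memX p G) (K : Subgroup G) : memX p K := by
  have hfin := memX_finite p G h
  have hd : Nat.card K ∣ p ^ 3 := (Subgroup.card_subgroup_dvd_card K).trans h.1
  by_cases hK : K = ⊤
  · subst hK
    exact memX_iso p G _ Subgroup.topEquiv.symm h
  · refine ⟨hd, Or.inl ?_⟩
    apply comm_of_dvd_sq p
    obtain ⟨k, hk, hc⟩ := (Nat.dvd_prime_pow hp.out).1 hd
    rw [hc]
    apply pow_dvd_pow
    by_contra h3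
    have hk3 : k = 3 := by omega
    apply hK
    apply Subgroup.eq_top_of_card_eq
    apply Nat.dvd_antisymm (Subgroup.card_subgroup_dvd_card K)
    rw [hc, hk3]
    exact h.1

/-- The class as a `GroupClass`. -/
def XX : GroupClass where
  mem G _ := memX p G
  finite G _ h := memX_finite p G h
  iso G H _ _ e h := memX_iso p G H e h
  subgroup G _ h K := memX_subgroup p G h K

end classX

section step

variable (p : ℕ) [hp : Fact p.Prime] {G : Type} [Group G] [Finite G]

/-- A nontrivial normal subgroup of a finite `p`-group contains a central element of order `p`. -/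
theorem exists_central (hG : IsPGroup p G) (M : Subgroup G) [hM : M.Normal] (hne : M ≠ ⊥) :
    ∃ z ∈ M, (∀ g : G, g * z = z * g) ∧ orderOf z = p := by
  have hC : IsPGroup p (ConjAct G) := hG.of_equiv ConjAct.toConjAct
  have hnt : Nontrivial M := (Subgroup.nontrivial_iff_ne_bot M).2 hne
  have dvd : p ∣ Nat.card M := by
    obtain ⟨n, hn0, hn⟩ := (hG.to_subgroup M).nontrivial_iff_card.mp inferInstance
    exact hn.symm ▸ dvd_pow_self _ (ne_of_gt hn0)
  obtain ⟨b, hb, hb1⟩ := hC.exists_fixed_point_of_prime_dvd_card_of_fixed_point M dvd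
    (a := (1 : M)) (by intro g; exact smul_one g)
  have hcen : ∀ g : G, g * (b : G) = b * g := by
    intro g
    have h := congrArg Subtype.val (hb (ConjAct.toConjAct g))
    rw [ConjAct.Subgroup.val_conj_smul, ConjAct.smul_def, ConjAct.ofConjAct_toConjAct] at h
    exact mul_inv_eq_iff_eq_mul.1 h
  have hb' : (b : G) ≠ 1 := fun h => hb1 (Subtype.ext h.symm)
  obtain ⟨k, hk⟩ := (IsPGroup.iff_orderOf.1 hG) (b : G)
  have hk0 : k ≠ 0 := by
    rintro rfl
    rw [pow_zero, orderOf_eq_one_iff] at hk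
    exact hb' hk
  refine ⟨(b : G) ^ (p ^ (k - 1)), pow_mem b.2 _, fun g => ?_, ?_⟩
  · exact (Commute.pow_right (show Commute g (b : G) from hcen g) _)
  · rw [orderOf_pow, hk, Nat.gcd_eq_right (pow_dvd_pow p (Nat.sub_le k 1)),
      Nat.pow_div (Nat.sub_le k 1) hp.out.pos]
    rw [show k - (k - 1) = 1 by omega, pow_one]

/-- A normal step inside a normal subgroup. -/
theorem step (hG : IsPGroup p G) (H N : Subgroup G) [hH : H.Normal] [hN : N.Normal]
    (hHN : H < N) : ∃ H' : Subgroup G, H'.Normal ∧ H < H' ∧ H' ≤ N ∧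
      Nat.card H' = p * Nat.card H ∧ ∀ g : G, ∀ h ∈ H', g * h * g⁻¹ * h⁻¹ ∈ H := by
  have hQ : IsPGroup p (G ⧸ H) := hG.to_quotient H
  set f := QuotientGroup.mk' H with hf
  have hsurj : Function.Surjective f := QuotientGroup.mk'_surjective H
  have hker : f.ker = H := QuotientGroup.ker_mk' H
  have hMn : (N.map f).Normal := hN.map f hsurj
  have hMne : N.map f ≠ ⊥ := by
    intro h
    rw [Subgroup.map_eq_bot_iff, hker] at h
    exact absurd (lt_of_lt_of_le hHN h) (lt_irrefl _)
  obtain ⟨z, hzM, hzc, hzo⟩ := exists_central p hQ (N.map f) hMne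
  have hpow : ∀ w ∈ Subgroup.zpowers z, ∀ g : G ⧸ H, g * w = w * g := by
    rintro w ⟨k, rfl⟩ g
    exact Commute.zpow_right (show Commute g z from hzc g) k
  refine ⟨(Subgroup.zpowers z).comap f, ?_, ?_, ?_, ?_, ?_⟩
  · constructor
    intro n hn g
    rw [Subgroup.mem_comap] at hn ⊢
    rw [map_mul, map_mul, hpow _ hn, mul_assoc, ← map_mul, mul_inv_cancel, map_one, mul_one]
    exact hn
  · rw [lt_iff_le_and_ne]
    constructor
    · intro x hx
      rw [Subgroup.mem_comap]
      have : f x = 1 := by rw [← hker] at hx; exact hx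
      rw [this]; exact one_mem _
    · intro h
      obtain ⟨g, hg⟩ := hsurj z
      have h1 : g ∈ (Subgroup.zpowers z).comap f := by
        rw [Subgroup.mem_comap, hg]; exact Subgroup.mem_zpowers z
      rw [← h, ← hker, MonoidHom.mem_ker, hg] at h1
      rw [h1, orderOf_one] at hzo
      exact hp.out.one_lt.ne hzo
  · intro x hx
    rw [Subgroup.mem_comap] at hx
    have h1 : f x ∈ N.map f := by
      have : Subgroup.zpowers z ≤ N.map f := by
        rw [Subgroup.zpowers_le]; exact hzM
      exact this hx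
    obtain ⟨y, hy, hyx⟩ := h1
    have h2 : y⁻¹ * x ∈ f.ker := by
      rw [MonoidHom.mem_ker, map_mul, map_inv, hyx, inv_mul_cancel]
    rw [hker] at h2
    have h3 := mul_mem hy (hHN.le h2)
    rwa [mul_inv_cancel_left] at h3
  · have e1 := Subgroup.card_mul_index ((Subgroup.zpowers z).comap f)
    have e2 := Subgroup.card_mul_index (Subgroup.zpowers z)
    have e3 := Subgroup.card_mul_index H
    have e4 : ((Subgroup.zpowers z).comap f).index = (Subgroup.zpowers z).index :=
      Subgroup.index_comap_of_surjective _ hsurj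
    have e5 : H.index = Nat.card (G ⧸ H) := rfl
    have e6 : Nat.card (Subgroup.zpowers z) = p := by rw [Nat.card_zpowers, hzo]
    have hne : (Subgroup.zpowers z).index ≠ 0 := Subgroup.index_ne_zero_of_finite
    rw [e6] at e2
    apply Nat.eq_of_mul_eq_mul_right (Nat.pos_of_ne_zero hne)
    rw [← e4, e1, ← e3, e5, ← e2, e4]
    ring
  · intro g h hh
    rw [Subgroup.mem_comap] at hh
    rw [← hker, MonoidHom.mem_ker, map_mul, map_mul, map_mul, hpow _ hh, mul_assoc (f h),
      ← map_mul f g, mul_inv_cancel, map_one, mul_one, ← map_mul, mul_inv_cancel, map_one]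

/-- A self-centralizing normal subgroup of order `p ^ 2` of a `p`-group has index at most `p`. -/
theorem card_le_of_selfcentral (hG : IsPGroup p G) (H : Subgroup G) [hH : H.Normal]
    (hc : Nat.card H = p ^ 2) (hcent : ∀ g : G, (∀ h ∈ H, g * h = h * g) → g ∈ H) :
    Nat.card G ≤ p ^ 3 := by
  have hp1 : 1 < p := hp.out.one_lt
  have hbot : (⊥ : Subgroup G) < H := by
    rw [bot_lt_iff_ne_bot]
    rintro rfl
    rw [Subgroup.card_bot] at hc
    have : 1 < p ^ 2 := Nat.one_lt_pow two_ne_zero hp1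
    omega
  obtain ⟨Z, hZn, hZ0, hZH, hZc, hZcom⟩ := step p hG ⊥ H hbot
  rw [Subgroup.card_bot, mul_one] at hZc
  have hZlt : Z < H := by
    rw [lt_iff_le_and_ne]
    refine ⟨hZH, ?_⟩
    rintro rfl
    rw [hZc] at hc
    have : p < p ^ 2 := by nlinarith
    omega
  obtain ⟨H', -, hZH', hH'H, hH'c, hcom⟩ := step p hG Z H hZlt
  have hHH' : H' = H := by
    apply Subgroup.eq_of_le_of_card_ge hH'H
    rw [hH'c, hZc, hc, sq]
  rw [hHH'] at hcom
  obtain ⟨h0, hh0, hh0Z⟩ := SetLike.exists_of_lt hZlt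
  have hZcen : ∀ g : G, ∀ z ∈ Z, g * z = z * g := by
    intro g z hz
    have h1 := hZcom g z hz
    rw [Subgroup.mem_bot] at h1
    exact mul_inv_eq_iff_eq_mul.1 (mul_inv_eq_one.1 h1)
  -- an element commuting with `h0` lies in `H`
  have hkey : ∀ g : G, g * h0 = h0 * g → g ∈ H := by
    intro g hg
    apply hcent
    have h1 : Subgroup.centralizer {g} ⊓ H = H := by
      have hle : Z ≤ Subgroup.centralizer {g} ⊓ H := by
        intro z hz
        exact Subgroup.mem_inf.2 ⟨Subgroup.mem_centralizer_singleton_iff.2 (hZcen g z hz).symm,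
          hZH hz⟩
      have h2 : h0 ∈ Subgroup.centralizer {g} ⊓ H := by
        exact Subgroup.mem_inf.2 ⟨Subgroup.mem_centralizer_singleton_iff.2 hg.symm, hh0⟩
      apply Subgroup.eq_of_le_of_card_ge inf_le_right
      have hd : Nat.card ↥(Subgroup.centralizer {g} ⊓ H) ∣ p ^ 2 := by
        rw [← hc]; exact Subgroup.card_dvd_of_le inf_le_right
      obtain ⟨k, hk, hck⟩ := (Nat.dvd_prime_pow hp.out).1 hd
      have hgt : p < Nat.card ↥(Subgroup.centralizer {g} ⊓ H) := by
        rw [← hZc]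
        by_contra hnot
        push Not at hnot
        have := Subgroup.eq_of_le_of_card_ge hle hnot
        rw [← this] at h2
        exact hh0Z h2
      rw [hc, hck]
      rw [hck] at hgt
      have : k = 2 := by
        have h3 : 1 < k := by
          by_contra h4
          have : k ≤ 1 := by omega
          have h5 : p ^ k ≤ p ^ 1 := Nat.pow_le_pow_right hp.out.pos this
          rw [pow_one] at h5
          omega
        omega
      rw [this]
    intro h hh
    rw [← h1] at hh
    exact (Subgroup.mem_centralizer_singleton_iff.1 (Subgroup.mem_inf.1 hh).1).symm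
  let F : G ⧸ H → Z := fun q => ⟨q.out * h0 * q.out⁻¹ * h0⁻¹, hcom _ _ hh0⟩
  have hF : Function.Injective F := by
    intro q q' hqq
    have h1 : q.out * h0 * q.out⁻¹ * h0⁻¹ = q'.out * h0 * q'.out⁻¹ * h0⁻¹ :=
      congrArg Subtype.val hqq
    have h2 : q.out * h0 * q.out⁻¹ = q'.out * h0 * q'.out⁻¹ := mul_right_cancel h1
    have h3 : (q.out⁻¹ * q'.out) * h0 = h0 * (q.out⁻¹ * q'.out) := by
      have : q'.out * h0 = q.out * h0 * q.out⁻¹ * q'.out := by
        rw [h2]; group
      rw [mul_assoc, this]; group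
    have h4 := hkey _ h3
    have h5 : ((q.out : G) : G ⧸ H) = ((q'.out : G) : G ⧸ H) := QuotientGroup.eq.2 h4
    rwa [QuotientGroup.out_eq', QuotientGroup.out_eq'] at h5
  have h6 : Nat.card (G ⧸ H) ≤ Nat.card Z := Nat.card_le_card_of_injective F hF
  rw [← Subgroup.card_mul_index H, hc]
  have h7 : H.index = Nat.card (G ⧸ H) := rfl
  rw [h7]
  calc p ^ 2 * Nat.card (G ⧸ H) ≤ p ^ 2 * p := Nat.mul_le_mul_left _ (h6.trans hZc.le)
    _ = p ^ 3 := by ring

theorem abelian_step {G : Type} [Group G] [Finite G] (H H' : Subgroup G) [hH : H.Normal]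
    (hle : H ≤ H') (hc : Nat.card H' = p * Nat.card H)
    (hcen : ∀ x ∈ H', ∀ h ∈ H, x * h = h * x) (x y : H') : x * y = y * x := by
  have hn : (H.subgroupOf H').Normal := inferInstance
  have hcard : Nat.card (H' ⧸ H.subgroupOf H') = p := by
    have h1 := Subgroup.card_mul_index (H.subgroupOf H')
    have h2 : Nat.card (H.subgroupOf H') = Nat.card H :=
      Nat.card_congr (Subgroup.subgroupOfEquivOfLe hle).toEquiv
    have h3 : (H.subgroupOf H').index = Nat.card (H' ⧸ H.subgroupOf H') := rfl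
    rw [h2, h3, hc, mul_comm] at h1
    exact Nat.eq_of_mul_eq_mul_right Nat.card_pos h1
  have : IsCyclic (H' ⧸ H.subgroupOf H') := isCyclic_of_prime_card hcard
  refine commutative_of_cyclic_center_quotient (QuotientGroup.mk' (H.subgroupOf H')) ?_ x y
  rw [QuotientGroup.ker_mk']
  intro h hh
  rw [Subgroup.mem_center_iff]
  intro g
  apply Subtype.ext
  exact hcen g g.2 h (Subgroup.mem_subgroupOf.1 hh)

/-- Every maximal normal `X`-subgroup is a maximal `X`-subgroup. -/
theorem condition_one (hG : IsPGroup p G) (H : Subgroup G) (h : IsMaximalNormalX (XX p) H) :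
    IsMaximalX (XX p) H := by
  obtain ⟨hn, hX, hmax⟩ := h
  refine ⟨hX, fun K hK hlt => ?_⟩
  have hKc : Nat.card K ∣ p ^ 3 := hK.1
  obtain ⟨j, hj, hcj⟩ := (Nat.dvd_prime_pow hp.out).1 hKc
  obtain ⟨i, hi, hci⟩ := (Nat.dvd_prime_pow hp.out).1 (show Nat.card H ∣ p ^ 3 from hX.1)
  have hij : i < j := by
    have h1 : Nat.card H < Nat.card K := by
      by_contra hnot
      push Not at hnot
      exact hlt.ne (Subgroup.eq_of_le_of_card_ge hlt.le hnot)
    rw [hcj, hci] at h1
    exact (Nat.pow_lt_pow_iff_right hp.out.one_lt).1 h1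
  have htop : H < ⊤ := lt_of_lt_of_le hlt le_top
  by_cases hi2 : i ≤ 1
  · obtain ⟨H', hn', hHH', -, hc', -⟩ := step p hG H ⊤ htop
    refine hmax H' hn' ⟨?_, Or.inl ?_⟩ hHH'
    · rw [hc', hci, ← pow_succ']
      exact pow_dvd_pow p (by omega)
    · apply comm_of_dvd_sq p
      rw [hc', hci, ← pow_succ']
      exact pow_dvd_pow p (by omega)
  · have hi' : i = 2 := by omega
    have hj' : j = 3 := by omega
    subst hi' hj'
    have hab : ∀ x ∈ H, ∀ y ∈ H, x * y = y * x := by
      intro x hx y hy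
      have := comm_of_dvd_sq p (G := H) (by rw [hci]) ⟨x, hx⟩ ⟨y, hy⟩
      exact congrArg Subtype.val this
    have hCn : (Subgroup.centralizer (H : Set G)).Normal := inferInstance
    have hHC : H ≤ Subgroup.centralizer (H : Set G) := by
      intro x hx
      rw [Subgroup.mem_centralizer_iff]
      intro y hy
      exact hab y hy x hx
    by_cases hlt' : H < Subgroup.centralizer (H : Set G)
    · obtain ⟨H', hn', hHH', hH'C, hc', -⟩ := step p hG H _ hlt'
      refine hmax H' hn' ⟨?_, Or.inl ?_⟩ hHH'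
      · rw [hc', hci, ← pow_succ']
      · apply abelian_step p H H' hHH'.le hc'
        intro x hx h hh
        exact (Subgroup.mem_centralizer_iff.1 (hH'C hx) h hh).symm
    · have hHC' : Subgroup.centralizer (H : Set G) ≤ H := by
        by_contra hnot
        exact hlt' (lt_of_le_not_ge hHC hnot)
      have hle := card_le_of_selfcentral p hG H hci (fun g hg => hHC' (by
        rw [Subgroup.mem_centralizer_iff]
        intro h hh
        exact (hg h hh).symm))
      have hKtop : K = ⊤ := by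
        apply Subgroup.eq_top_of_card_eq
        apply le_antisymm (Subgroup.card_le_card_group K)
        rw [hcj]; exact hle
      subst hKtop
      exact hmax ⊤ inferInstance hK htop

/-- The counting lemma. -/
theorem count_two (N C H1 : Subgroup G) (hNC : N < C) (hNH : N < H1)
    (cN : Nat.card N = p ^ 2) (cC : Nat.card C = p ^ 3) (cH : Nat.card H1 = p ^ 3)
    (hC : ∀ x ∈ C, ∀ y ∈ C, x * y = y * x) (hcent : ∀ g : G, (∀ n ∈ N, g * n = n * g) → g ∈ C)
    (hgen : gen p H1) (hord : ∀ g : G, g ^ p = 1 → g ∈ H1) (hne : C ≠ H1) :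
    aCount p (XX p) N = 2 := by
  have hrel : ∀ K : Subgroup G, N ≤ K → N.relIndex K * p ^ 2 = Nat.card K := by
    intro K hK
    have h1 := Subgroup.card_mul_index (N.subgroupOf K)
    have h2 : Nat.card (N.subgroupOf K) = Nat.card N :=
      Nat.card_congr (Subgroup.subgroupOfEquivOfLe hK).toEquiv
    rw [h2, cN, mul_comm] at h1
    exact h1
  have hset : {K : Subgroup G | N < K ∧ (XX p).mem K ∧ N.relIndex K = p} = {C, H1} := by
    ext K
    simp only [Set.mem_ofPred_eq, Set.mem_insert_iff, Set.mem_singleton_iff]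
    constructor
    · rintro ⟨hNK, hKX, hKr⟩
      have hKc : Nat.card K = p ^ 3 := by
        rw [← hrel K hNK.le, hKr]; ring
      rcases hKX.2 with hcomm | hg
      · left
        apply Subgroup.eq_of_le_of_card_ge
        · intro x hx
          apply hcent
          intro n hn
          exact congrArg Subtype.val (hcomm ⟨x, hx⟩ ⟨n, hNK.le hn⟩)
        · rw [cC, hKc]
      · right
        apply Subgroup.eq_of_le_of_card_ge
        · have := hg (H1.subgroupOf K) (by
            intro g hgp
            rw [Subgroup.mem_subgroupOf]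
            apply hord
            have := congrArg Subtype.val hgp
            simpa using this)
          rwa [Subgroup.subgroupOf_eq_top] at this
        · rw [cH, hKc]
    · have hp2 : 0 < p ^ 2 := pow_pos hp.out.pos 2
      rintro (rfl | rfl)
      · refine ⟨hNC, ⟨by rw [cC], Or.inl ?_⟩, ?_⟩
        · rintro ⟨x, hx⟩ ⟨y, hy⟩
          exact Subtype.ext (hC x hx y hy)
        · have := hrel _ hNC.le
          rw [cC] at this
          apply Nat.eq_of_mul_eq_mul_right hp2
          rw [this]; ring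
      · refine ⟨hNH, ⟨by rw [cH], Or.inr hgen⟩, ?_⟩
        have := hrel _ hNH.le
        rw [cH] at this
        apply Nat.eq_of_mul_eq_mul_right hp2
        rw [this]; ring
  unfold aCount
  have h1 : Nat.card {K : Subgroup G // N < K ∧ (XX p).mem K ∧ N.relIndex K = p} =
      Set.ncard {K : Subgroup G | N < K ∧ (XX p).mem K ∧ N.relIndex K = p} := rfl
  rw [h1, hset, Set.ncard_pair hne]

theorem not_condA (N : Subgroup G) (hX : (XX p).mem N) (h : aCount p (XX p) N = 2) :
    ¬ CondA p (XX p) G := by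
  intro hA
  rcases hA N hX with h1 | h1
  · omega
  · rw [h] at h1
    have h2 := (Nat.modEq_iff_dvd' (show 1 ≤ 2 by norm_num)).1 h1.symm
    have h3 : p ∣ 1 := by simpa using h2
    exact hp.out.one_lt.ne' (Nat.dvd_one.1 h3)

end step

section odd

variable (p : ℕ) [hp : Fact p.Prime]

/-- The embedding `ZMod p → ZMod (p ^ 2)`, `m ↦ p m`. -/
noncomputable def io : ZMod p →+ ZMod (p ^ 2) :=
  ZMod.lift p ⟨(AddMonoidHom.mulLeft (p : ZMod (p ^ 2))).comp (Int.castAddHom (ZMod (p ^ 2))), by
    show (p : ZMod (p ^ 2)) * ((p : ℤ) : ZMod (p ^ 2)) = 0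
    have : ((p ^ 2 : ℕ) : ZMod (p ^ 2)) = 0 := ZMod.natCast_self _
    push_cast at this ⊢
    rw [← sq]; exact this⟩

theorem io_natCast (m : ℕ) : io p (m : ZMod p) = (p : ZMod (p ^ 2)) * m := by
  have h := ZMod.lift_coe p ⟨(AddMonoidHom.mulLeft (p : ZMod (p ^ 2))).comp
    (Int.castAddHom (ZMod (p ^ 2))), by
    show (p : ZMod (p ^ 2)) * ((p : ℤ) : ZMod (p ^ 2)) = 0
    have : ((p ^ 2 : ℕ) : ZMod (p ^ 2)) = 0 := ZMod.natCast_self _
    push_cast at this ⊢
    rw [← sq]; exact this⟩ (m : ℤ)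
  have h2 : (((m : ℤ)) : ZMod p) = (m : ZMod p) := by push_cast; rfl
  rw [h2] at h
  unfold io
  rw [h]
  show (p : ZMod (p ^ 2)) * ((m : ℤ) : ZMod (p ^ 2)) = _
  push_cast; rfl

theorem io_injective : Function.Injective (io p) := by
  rw [injective_iff_map_eq_zero]
  intro a ha
  obtain ⟨m, rfl⟩ := ZMod.natCast_zmod_surjective a
  rw [io_natCast, ← Nat.cast_mul, ZMod.natCast_eq_zero_iff, sq] at ha
  rw [ZMod.natCast_eq_zero_iff]
  exact Nat.dvd_of_mul_dvd_mul_left hp.out.pos ha

theorem mem_range_io (k : ZMod (p ^ 2)) (h : (p : ZMod (p ^ 2)) * k = 0) : ∃ m, io p m = k := by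
  obtain ⟨n, rfl⟩ := ZMod.natCast_zmod_surjective k
  rw [← Nat.cast_mul, ZMod.natCast_eq_zero_iff, sq] at h
  obtain ⟨m, rfl⟩ := Nat.dvd_of_mul_dvd_mul_left hp.out.pos h
  exact ⟨(m : ZMod p), by rw [io_natCast]; push_cast; rfl⟩

theorem p_mul_io (m : ZMod p) : (p : ZMod (p ^ 2)) * io p m = 0 := by
  obtain ⟨n, rfl⟩ := ZMod.natCast_zmod_surjective m
  rw [io_natCast, ← mul_assoc]
  have : ((p ^ 2 : ℕ) : ZMod (p ^ 2)) = 0 := ZMod.natCast_self _
  push_cast at this
  rw [← sq, this, zero_mul]

/-- The central product of the extraspecial group of order `p ^ 3` and exponent `p` with a cyclic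
group of order `p ^ 2` (for odd `p`). -/
@[ext] structure Gp where
  a : ZMod p
  b : ZMod p
  k : ZMod (p ^ 2)

variable {p}

noncomputable instance : Mul (Gp p) := ⟨fun g h => ⟨g.a + h.a, g.b + h.b, g.k + h.k + io p (g.a * h.b)⟩⟩
instance : One (Gp p) := ⟨⟨0, 0, 0⟩⟩
noncomputable instance : Inv (Gp p) := ⟨fun g => ⟨-g.a, -g.b, -g.k + io p (g.a * g.b)⟩⟩

theorem Gp.mul_a (g h : Gp p) : (g * h).a = g.a + h.a := rfl
theorem Gp.mul_b (g h : Gp p) : (g * h).b = g.b + h.b := rfl
theorem Gp.mul_k (g h : Gp p) : (g * h).k = g.k + h.k + io p (g.a * h.b) := rfl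
theorem Gp.one_a : (1 : Gp p).a = 0 := rfl
theorem Gp.one_b : (1 : Gp p).b = 0 := rfl
theorem Gp.one_k : (1 : Gp p).k = 0 := rfl
theorem Gp.inv_a (g : Gp p) : (g⁻¹).a = -g.a := rfl
theorem Gp.inv_b (g : Gp p) : (g⁻¹).b = -g.b := rfl
theorem Gp.inv_k (g : Gp p) : (g⁻¹).k = -g.k + io p (g.a * g.b) := rfl

noncomputable instance : Group (Gp p) :=
  Group.ofRightAxioms
    (by
      intro x y z
      ext
      · simp only [Gp.mul_a]; ring
      · simp only [Gp.mul_b]; ring
      · simp only [Gp.mul_a, Gp.mul_b, Gp.mul_k, add_mul, mul_add, map_add]; ring)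
    (by
      intro x
      ext
      · simp only [Gp.mul_a, Gp.one_a, add_zero]
      · simp only [Gp.mul_b, Gp.one_b, add_zero]
      · simp only [Gp.mul_k, Gp.one_k, Gp.one_b, mul_zero, map_zero, add_zero])
    (by
      intro x
      ext
      · simp only [Gp.mul_a, Gp.inv_a, Gp.one_a, add_neg_cancel]
      · simp only [Gp.mul_b, Gp.inv_b, Gp.one_b, add_neg_cancel]
      · simp only [Gp.mul_k, Gp.inv_k, Gp.inv_b, Gp.one_k, mul_neg, map_neg]; ring)

theorem Gp.pow_eq (g : Gp p) (n : ℕ) :
    g ^ n = ⟨n * g.a, n * g.b, n * g.k + io p ((n.choose 2 : ℕ) * (g.a * g.b))⟩ := by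
  induction n with
  | zero =>
    rw [pow_zero]
    ext
    · simp [Gp.one_a]
    · simp [Gp.one_b]
    · simp [Gp.one_k]
  | succ n ih =>
    rw [pow_succ, ih]
    have hc : (n + 1).choose 2 = n + n.choose 2 := by
      rw [Nat.choose_succ_succ' n 1, Nat.choose_one_right]
    ext
    · simp only [Gp.mul_a]; push_cast; ring
    · simp only [Gp.mul_b]; push_cast; ring
    · simp only [Gp.mul_k]
      rw [hc]
      push_cast
      rw [add_mul (n : ZMod p), map_add, mul_assoc (n : ZMod p)]
      ring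

theorem Gp.pow_p (h2 : p ≠ 2) (g : Gp p) : g ^ p = ⟨0, 0, p * g.k⟩ := by
  rw [Gp.pow_eq]
  have h3 : 2 < p := lt_of_le_of_ne hp.out.two_le (Ne.symm h2)
  have h4 : ((p.choose 2 : ℕ) : ZMod p) = 0 :=
    (ZMod.natCast_eq_zero_iff _ _).2 (hp.out.dvd_choose_self two_ne_zero h3)
  ext
  · simp
  · simp
  · simp only []
    rw [h4, zero_mul, map_zero, add_zero]

/-- The equivalence with the product. -/
def Gp.equiv (p : ℕ) : Gp p ≃ ZMod p × ZMod p × ZMod (p ^ 2) where
  toFun g := (g.a, g.b, g.k)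
  invFun t := ⟨t.1, t.2.1, t.2.2⟩
  left_inv _ := rfl
  right_inv _ := rfl

instance : Finite (Gp p) := by
  have : NeZero (p ^ 2) := ⟨pow_ne_zero 2 hp.out.ne_zero⟩
  exact Finite.of_equiv _ (Gp.equiv p).symm

theorem Gp.isPGroup : IsPGroup p (Gp p) := by
  apply IsPGroup.of_card (n := 4)
  rw [Nat.card_congr (Gp.equiv p), Nat.card_prod, Nat.card_prod, Nat.card_zmod, Nat.card_zmod]
  ring

variable (p)

/-- `N = {a = 0, k ∈ p ZMod (p ^ 2)}`. -/
noncomputable def sN : Subgroup (Gp p) where
  carrier := {g | g.a = 0 ∧ ∃ m, io p m = g.k}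
  mul_mem' := by
    rintro g h ⟨h1, m, hm⟩ ⟨h2, n, hn⟩
    refine ⟨by rw [Gp.mul_a, h1, h2, add_zero], m + n, ?_⟩
    rw [Gp.mul_k, h1, zero_mul, map_zero, add_zero, map_add, hm, hn]
  one_mem' := ⟨rfl, 0, map_zero _⟩
  inv_mem' := by
    rintro g ⟨h1, m, hm⟩
    refine ⟨by rw [Gp.inv_a, h1, neg_zero], -m, ?_⟩
    rw [Gp.inv_k, h1, zero_mul, map_zero, add_zero, map_neg, hm]

/-- `C = {a = 0}`. -/
noncomputable def sC : Subgroup (Gp p) where
  carrier := {g | g.a = 0}
  mul_mem' := by
    intro g h h1 h2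
    show (g * h).a = 0
    rw [Gp.mul_a, show g.a = 0 from h1, show h.a = 0 from h2, add_zero]
  one_mem' := rfl
  inv_mem' := by
    intro g h1
    show (g⁻¹).a = 0
    rw [Gp.inv_a, show g.a = 0 from h1, neg_zero]

/-- `H = {k ∈ p ZMod (p ^ 2)}`. -/
noncomputable def sH : Subgroup (Gp p) where
  carrier := {g | ∃ m, io p m = g.k}
  mul_mem' := by
    rintro g h ⟨m, hm⟩ ⟨n, hn⟩
    refine ⟨m + n + g.a * h.b, ?_⟩
    rw [Gp.mul_k, map_add, map_add, hm, hn]
  one_mem' := ⟨0, map_zero _⟩
  inv_mem' := by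
    rintro g ⟨m, hm⟩
    refine ⟨-m + g.a * g.b, ?_⟩
    rw [Gp.inv_k, map_add, map_neg, hm]

theorem card_sN : Nat.card (sN p) = p ^ 2 := by
  have e : (ZMod p × ZMod p) ≃ sN p := Equiv.ofBijective
    (fun t => ⟨⟨0, t.1, io p t.2⟩, rfl, t.2, rfl⟩) ⟨by
      rintro ⟨b, m⟩ ⟨b', m'⟩ h
      have h1 := congrArg (fun g : sN p => (g : Gp p).b) h
      have h2 := congrArg (fun g : sN p => (g : Gp p).k) h
      exact Prod.ext h1 (io_injective p h2), by
      rintro ⟨⟨a, b, k⟩, h1, m, hm⟩
      refine ⟨(b, m), ?_⟩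
      apply Subtype.ext
      exact Gp.ext h1.symm rfl hm⟩
  rw [← Nat.card_congr e, Nat.card_prod, Nat.card_zmod]; ring

theorem card_sC : Nat.card (sC p) = p ^ 3 := by
  have e : (ZMod p × ZMod (p ^ 2)) ≃ sC p := Equiv.ofBijective
    (fun t => ⟨⟨0, t.1, t.2⟩, rfl⟩) ⟨by
      rintro ⟨b, m⟩ ⟨b', m'⟩ h
      have h1 := congrArg (fun g : sC p => (g : Gp p).b) h
      have h2 := congrArg (fun g : sC p => (g : Gp p).k) h
      exact Prod.ext h1 h2, by
      rintro ⟨⟨a, b, k⟩, h1⟩
      refine ⟨(b, k), ?_⟩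
      apply Subtype.ext
      exact Gp.ext (show (0 : ZMod p) = a from Eq.symm h1) rfl rfl⟩
  rw [← Nat.card_congr e, Nat.card_prod, Nat.card_zmod, Nat.card_zmod]; ring

theorem card_sH : Nat.card (sH p) = p ^ 3 := by
  have e : (ZMod p × ZMod p × ZMod p) ≃ sH p := Equiv.ofBijective
    (fun t => ⟨⟨t.1, t.2.1, io p t.2.2⟩, t.2.2, rfl⟩) ⟨by
      rintro ⟨a, b, m⟩ ⟨a', b', m'⟩ h
      have h0 := congrArg (fun g : sH p => (g : Gp p).a) h
      have h1 := congrArg (fun g : sH p => (g : Gp p).b) h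
      have h2 := congrArg (fun g : sH p => (g : Gp p).k) h
      exact Prod.ext h0 (Prod.ext h1 (io_injective p h2)), by
      rintro ⟨⟨a, b, k⟩, m, hm⟩
      refine ⟨(a, b, m), ?_⟩
      apply Subtype.ext
      exact Gp.ext rfl rfl hm⟩
  rw [← Nat.card_congr e, Nat.card_prod, Nat.card_prod, Nat.card_zmod]; ring

theorem lt_of_card {G : Type} [Group G] [Finite G] {A B : Subgroup G} (h : A ≤ B)
    (hc : Nat.card A ≠ Nat.card B) : A < B :=
  lt_of_le_of_ne h (fun h' => hc (by rw [h']))

theorem odd_case (h2 : p ≠ 2) : ¬ CondA p (XX p) (Gp p) := by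
  have hp1 : 1 < p := hp.out.one_lt
  have hcard : p ^ 2 ≠ p ^ 3 := by
    intro h
    have := Nat.pow_right_injective hp.out.two_le h
    omega
  apply not_condA p (sN p)
  · refine ⟨by rw [card_sN]; exact pow_dvd_pow p (by norm_num), Or.inl ?_⟩
    apply comm_of_dvd_sq p
    rw [card_sN]
  · apply count_two p (sN p) (sC p) (sH p)
    · apply lt_of_card
      · rintro g ⟨h1, -⟩; exact h1
      · rw [card_sN, card_sC]; exact hcard
    · apply lt_of_card
      · rintro g ⟨-, h1⟩; exact h1
      · rw [card_sN, card_sH]; exact hcard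
    · exact card_sN p
    · exact card_sC p
    · exact card_sH p
    · intro x hx y hy
      have hx' : x.a = 0 := hx
      have hy' : y.a = 0 := hy
      ext
      · simp only [Gp.mul_a]; ring
      · simp only [Gp.mul_b]; ring
      · simp only [Gp.mul_k, hx', hy', zero_mul, map_zero]; ring
    · intro g hg
      have h1 := hg ⟨0, 1, 0⟩ ⟨rfl, 0, map_zero _⟩
      have h3 := congrArg Gp.k h1
      simp only [Gp.mul_k, mul_one, zero_mul, map_zero, add_zero, zero_add] at h3
      have h4 : io p g.a = 0 := by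
        have : g.k + io p g.a = g.k + 0 := by rw [h3, add_zero]
        exact add_left_cancel this
      have h5 := io_injective p (h4.trans (map_zero (io p)).symm)
      exact h5
    · intro K hK
      rw [eq_top_iff]
      rintro ⟨g, m, hm⟩ -
      apply hK
      apply Subtype.ext
      show g ^ p = 1
      rw [Gp.pow_p h2, ← hm, p_mul_io]
      rfl
    · intro g hg
      rw [Gp.pow_p h2] at hg
      have := congrArg Gp.k hg
      exact mem_range_io p g.k this
    · intro h
      have h1 : (⟨1, 0, 0⟩ : Gp p) ∈ sH p := ⟨0, map_zero _⟩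
      rw [← h] at h1
      have h3 : (1 : ZMod p) = 0 := h1
      exact one_ne_zero h3

end odd

section two

/-- The twist `1, 3`. -/
def tw (s : ZMod 2) : ZMod 8 := if s = 0 then 1 else 3

theorem tw_add : ∀ s t : ZMod 2, tw (s + t) = tw s * tw t := by decide
theorem tw_sq : ∀ s : ZMod 2, tw s * tw s = 1 := by decide

/-- The semidihedral group of order 16. -/
@[ext] structure SD where
  r : ZMod 8
  s : ZMod 2
deriving DecidableEq

instance : Mul SD := ⟨fun g h => ⟨g.r + tw g.s * h.r, g.s + h.s⟩⟩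
instance : One SD := ⟨⟨0, 0⟩⟩
instance : Inv SD := ⟨fun g => ⟨-(tw g.s * g.r), -g.s⟩⟩

theorem SD.mul_r (g h : SD) : (g * h).r = g.r + tw g.s * h.r := rfl
theorem SD.mul_s (g h : SD) : (g * h).s = g.s + h.s := rfl
theorem SD.one_r : (1 : SD).r = 0 := rfl
theorem SD.one_s : (1 : SD).s = 0 := rfl
theorem SD.inv_r (g : SD) : (g⁻¹).r = -(tw g.s * g.r) := rfl
theorem SD.inv_s (g : SD) : (g⁻¹).s = -g.s := rfl

instance : Group SD :=
  Group.ofRightAxioms
    (by
      intro x y z
      ext
      · simp only [SD.mul_r, SD.mul_s, tw_add]; ring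
      · simp only [SD.mul_s]; ring)
    (by
      intro x
      ext
      · simp only [SD.mul_r, SD.one_r, mul_zero, add_zero]
      · simp only [SD.mul_s, SD.one_s, add_zero])
    (by
      intro x
      ext
      · simp only [SD.mul_r, SD.inv_r, SD.one_r, mul_neg, ← mul_assoc, tw_sq, one_mul,
          add_neg_cancel]
      · simp only [SD.mul_s, SD.inv_s, SD.one_s, add_neg_cancel])

/-- The equivalence with the product. -/
def SD.equiv : SD ≃ ZMod 8 × ZMod 2 where
  toFun g := (g.r, g.s)
  invFun t := ⟨t.1, t.2⟩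
  left_inv _ := rfl
  right_inv _ := rfl

instance : Fintype SD := Fintype.ofEquiv _ SD.equiv.symm

theorem SD.isPGroup : IsPGroup 2 SD := by
  apply IsPGroup.of_card (n := 4)
  rw [Nat.card_congr SD.equiv, Nat.card_prod, Nat.card_zmod, Nat.card_zmod]
  norm_num

/-- `N = {s = 0, r even}`. -/
def dN : Subgroup SD where
  carrier := {g | g.s = 0 ∧ 4 * g.r = 0}
  mul_mem' := by
    rintro g h ⟨h1, h2⟩ ⟨h3, h4⟩
    refine ⟨by rw [SD.mul_s, h1, h3, add_zero], ?_⟩
    rw [SD.mul_r, mul_add, h2, mul_left_comm, h4, mul_zero, add_zero]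
  one_mem' := ⟨rfl, by rw [SD.one_r, mul_zero]⟩
  inv_mem' := by
    rintro g ⟨h1, h2⟩
    refine ⟨by rw [SD.inv_s, h1, neg_zero], ?_⟩
    rw [SD.inv_r, mul_neg, mul_left_comm, h2, mul_zero, neg_zero]

/-- `C = {s = 0}`. -/
def dC : Subgroup SD where
  carrier := {g | g.s = 0}
  mul_mem' := by
    intro g h h1 h2
    show (g * h).s = 0
    rw [SD.mul_s, show g.s = 0 from h1, show h.s = 0 from h2, add_zero]
  one_mem' := rfl
  inv_mem' := by
    intro g h1
    show (g⁻¹).s = 0
    rw [SD.inv_s, show g.s = 0 from h1, neg_zero]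

/-- `H = {r even}`. -/
def dH : Subgroup SD where
  carrier := {g | 4 * g.r = 0}
  mul_mem' := by
    intro g h h2 h4
    show 4 * (g * h).r = 0
    rw [SD.mul_r, mul_add, show 4 * g.r = 0 from h2, mul_left_comm, show 4 * h.r = 0 from h4,
      mul_zero, add_zero]
  one_mem' := by
    show 4 * (1 : SD).r = 0
    rw [SD.one_r, mul_zero]
  inv_mem' := by
    intro g h2
    show 4 * (g⁻¹).r = 0
    rw [SD.inv_r, mul_neg, mul_left_comm, show 4 * g.r = 0 from h2, mul_zero, neg_zero]

instance : DecidablePred (· ∈ dN) := fun g =>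
  inferInstanceAs (Decidable (g.s = 0 ∧ 4 * g.r = 0))
instance : DecidablePred (· ∈ dC) := fun g => inferInstanceAs (Decidable (g.s = 0))
instance : DecidablePred (· ∈ dH) := fun g => inferInstanceAs (Decidable (4 * g.r = 0))

theorem card_dN : Nat.card dN = 2 ^ 2 := by
  rw [Nat.card_eq_fintype_card]; decide
theorem card_dC : Nat.card dC = 2 ^ 3 := by
  rw [Nat.card_eq_fintype_card]; decide
theorem card_dH : Nat.card dH = 2 ^ 3 := by
  rw [Nat.card_eq_fintype_card]; decide

theorem two_case : ¬ CondA 2 (XX 2) SD := by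
  apply not_condA 2 dN
  · refine ⟨by rw [card_dN]; norm_num, Or.inl ?_⟩
    apply comm_of_dvd_sq 2
    rw [card_dN]
  · apply count_two 2 dN dC dH
    · apply lt_of_card
      · rintro g ⟨h1, -⟩; exact h1
      · rw [card_dN, card_dC]; norm_num
    · apply lt_of_card
      · rintro g ⟨-, h1⟩; exact h1
      · rw [card_dN, card_dH]; norm_num
    · exact card_dN
    · exact card_dC
    · exact card_dH
    · intro x hx y hy
      have hx' : x.s = 0 := hx
      have hy' : y.s = 0 := hy
      have h1 : tw 0 = 1 := by decide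
      ext
      · simp only [SD.mul_r, hx', hy', h1]; ring
      · simp only [SD.mul_s, hx', hy']
    · intro g hg
      have h1 := hg ⟨2, 0⟩ ⟨rfl, by decide⟩
      have h2 := congrArg SD.r h1
      rw [SD.mul_r, SD.mul_r] at h2
      have h3 : ∀ (r : ZMod 8) (s : ZMod 2), r + tw s * 2 = 2 + tw 0 * r → s = 0 := by decide
      exact h3 _ _ h2
    · intro K hK
      have h1 : ∀ g : dH, (g : SD).s = 1 → g ∈ K := by
        rintro ⟨⟨r, s⟩, hr⟩ hs
        apply hK
        apply Subtype.ext
        have hs' : s = 1 := hs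
        have hr' : 4 * r = 0 := hr
        subst hs'
        show (⟨r, 1⟩ : SD) ^ 2 = 1
        rw [pow_two]
        ext
        · rw [SD.mul_r, SD.one_r]
          have : tw 1 = 3 := by decide
          show r + tw 1 * r = 0
          rw [this, ← hr']; ring
        · show (1 : ZMod 2) + 1 = 0
          decide
      rw [eq_top_iff]
      rintro ⟨⟨r, s⟩, hr⟩ -
      have h2' : ∀ t : ZMod 2, t = 0 ∨ t = 1 := by decide
      have h2 : s = 0 ∨ s = 1 := h2' s
      rcases h2 with rfl | rfl
      · have h3 : (⟨⟨r, 0⟩, hr⟩ : dH) = ⟨⟨r, 1⟩, hr⟩ * ⟨⟨0, 1⟩, by show (4 : ZMod 8) * 0 = 0; decide⟩ := by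
          apply Subtype.ext
          show (⟨r, 0⟩ : SD) = ⟨r, 1⟩ * ⟨0, 1⟩
          ext
          · rw [SD.mul_r]; simp
          · show (0 : ZMod 2) = 1 + 1
            decide
        rw [h3]
        exact mul_mem (h1 _ rfl) (h1 _ rfl)
      · exact h1 _ rfl
    · intro g hg
      rw [pow_two] at hg
      have h1 := congrArg SD.r hg
      rw [SD.mul_r] at h1
      have h3 : ∀ (r : ZMod 8) (s : ZMod 2), r + tw s * r = 0 → 4 * r = 0 := by decide
      exact h3 _ _ h1
    · intro h
      have h1 : (⟨0, 1⟩ : SD) ∈ dH := by show (4 : ZMod 8) * 0 = 0; decide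
      rw [← h] at h1
      have h3 : (1 : ZMod 2) = 0 := h1
      exact one_ne_zero h3

end two

/-- **Answer to Q1: no**, for every prime `p`. -/
theorem result (p : ℕ) [Fact p.Prime] : ∃ X : GroupClass,
    (∀ (G : Type) [Group G] [Finite G], IsPGroup p G →
      ∀ H : Subgroup G, IsMaximalNormalX X H → IsMaximalX X H) ∧
    ∃ (G : Type) (_ : Group G) (_ : Finite G), IsPGroup p G ∧ ¬ CondA p X G := by
  refine ⟨XX p, fun G _ _ hG H hH => condition_one p hG H hH, ?_⟩
  by_cases h2 : p = 2
  · subst h2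
    exact ⟨SD, inferInstance, inferInstance, SD.isPGroup, two_case⟩
  · exact ⟨Gp p, inferInstance, inferInstance, Gp.isPGroup, odd_case p h2⟩

end Pool.Agent.Results.MP_b62331_al.CongruenceConverse
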